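import Pool.Agent.MP_c3b115_an.H67.Order

set_option autoImplicit false

open Filter Topology

namespace Pool.Agent.Results.MP_c3b115_an.ZeroFree

open Pool.Agent.MP_c3b115_an.H67

/-- The Nevanlinna order `limsup log T(r, f) / log r`, as an extended real number. -/
noncomputable def nevOrder (f : ℂ → ℂ) : EReal :=
  limsup (fun r : ℝ =>
    ((Real.log (ValueDistribution.characteristic f ⊤ r) / Real.log r : ℝ) : EReal)) atTop

/-- The sum of squared Cauchy kernels. -/
noncomputable def cauchySq (c t : ℕ → ℂ) (z : ℂ) : ℂ := ∑' n, c n / (z - t n) ^ 2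

/-- A zero-free sum of squared Cauchy kernels of infinite order. -/
theorem result : ∃ c t : ℕ → ℂ, Function.Injective t ∧ (∀ n, t n ≠ 0) ∧
    Tendsto (fun n => ‖t n‖) atTop atTop ∧ Summable (fun n => ‖c n‖ / ‖t n‖ ^ 2) ∧
    Meromorphic (cauchySq c t) ∧ nevOrder (cauchySq c t) = ⊤ ∧
    (∀ z : ℂ, (∀ n, z ≠ t n) → cauchySq c t z ≠ 0) ∧
    ∀ z : ℂ, meromorphicOrderAt (cauchySq c t) z ≤ 0 := by
  obtain ⟨t, hinj, ht0, htop, hall⟩ := exists_enum
  have hsum : cauchySq (fun n => cc (t n)) t = SS := by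
    funext z
    refine hinj.tsum_eq (f := fun w => cc w / (z - w) ^ 2) fun w hw => ?_
    refine hall w (cc_ne fun h => hw ?_)
    simp [h]
  have hev : ∀ z : ℂ, SS =ᶠ[𝓝[≠] z] ff := fun z => by
    filter_upwards [eventually_ne z] with ζ hζ using SS_eq_ff hζ
  refine ⟨fun n => cc (t n), t, hinj, ht0, ?_, summable_cc.comp_injective hinj, ?_, ?_, ?_, ?_⟩
  · exact tendsto_norm_cocompact_atTop.comp htop
  · rw [hsum]
    exact fun z => (ff_meromorphic z).congr (hev z).symm
  · rw [hsum, EReal.eq_top_iff_forall_lt]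
    intro ρ
    refine lt_of_lt_of_le (EReal.coe_lt_coe_iff.2 (lt_add_one ρ)) ?_
    refine le_limsup_of_frequently_le' (frequently_atTop.2 fun R => ?_)
    obtain ⟨r, hr, hr0, h⟩ := infinite_order (ρ + 1) (max R 1)
    have h1 : 1 < r := lt_of_le_of_lt (le_max_right _ _) hr
    refine ⟨r, (le_max_left _ _).trans hr.le, EReal.coe_le_coe_iff.2 ?_⟩
    rw [ValueDistribution.characteristic_congr_codiscrete (g := ff) ?_ hr0]
    · rw [le_div_iff₀ (Real.log_pos h1), ← Real.log_rpow (by linarith)]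
      exact Real.log_le_log (Real.rpow_pos_of_pos (by linarith) _) h.le
    · filter_upwards [poles_codiscrete] with z hz using SS_eq_ff hz
  · intro z hz
    have hG : G z ≠ b := fun h => by
      obtain ⟨n, hn⟩ := hall z h
      exact hz n hn.symm
    rw [hsum, SS_eq_ff hG]
    exact div_ne_zero (Complex.exp_ne_zero _) (pow_ne_zero _ (sub_ne_zero.2 hG))
  · intro z
    rw [hsum, meromorphicOrderAt_congr (hev z)]
    exact not_lt.1 (ff_no_zero z)

end Pool.Agent.Results.MP_c3b115_an.ZeroFree
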